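import Mathlib
import Pool.Agent.Helper3_PPX.Geo

/-!
# Squad PPZ: definitions
-/

set_option autoImplicit false

universe u

namespace Pool.Agent.PPZ

open MvPolynomial PGH PPX

/-- A bad curve: a function field `E` of one variable over `k` with a derivation `D` with constants
`k`, and functions `x`, `z`; all zeros of the `x - a i` which are simple are zeros of some `z - b j`
and conversely, up to the exceptional set `bd`, and the sum of the heights of `x` and `z` is larger
than the number of poles of `D` plus the number of exceptional places. -/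
structure BC {k : Type u} [Field k] {N₁ N₂ : ℕ} (a : Fin N₁ → k) (b : Fin N₂ → k) where
  E : Type u
  [field : Field E]
  [algebra : Algebra k E]
  [charZero : CharZero E]
  [ff : FF k E]
  D : Derivation ℤ E E
  cp : Place k E → ℕ
  sc : Finset (Place k E)
  bd : Finset (Place k E)
  x : E
  z : E
  ker : ∀ w : E, D w = 0 ↔ ∃ c : k, algebraMap k E c = w
  bp : Bp D cp sc
  dx : D x ≠ 0
  dz : D z ≠ 0
  pat : Pat D a b x z bd
  bad : (∑ P ∈ sc, cp P) + bd.card < ht k x + ht k z

attribute [instance] BC.field BC.algebra BC.charZero BC.ff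

section

variable {k : Type u} [Field k] {N₁ N₂ : ℕ} {a : Fin N₁ → k} {b : Fin N₂ → k}

namespace BC

variable (C : BC a b)

/-- `θ = dx / dz` -/
noncomputable def th : C.E := PPX.th C.D C.x C.z

/-- `Λ = (D θ / θ - 2 (∑ D x / (x - a i) - ∑ D z / (z - b j))) / D z` -/
noncomputable def la : C.E := PPX.la C.D (fun i => algebraMap k C.E (a i))
  (fun j => algebraMap k C.E (b j)) C.x C.z

/-- the point `(x, z, θ, Λ)` -/
noncomputable def pt : Fin 4 → C.E := ![C.x, C.z, C.th, C.la]

/-- the value of a polynomial in `x, z, θ, Λ` -/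
noncomputable def ev (Q : P4 k) : C.E := MvPolynomial.aeval C.pt Q

/-- the value of a polynomial in `x, z` -/
noncomputable def ev2 (F : MvPolynomial (Fin 2) k) : C.E := MvPolynomial.aeval ![C.x, C.z] F

/-- the sum of the heights of `x` and `z` -/
noncomputable def h : ℕ := ht k C.x + ht k C.z

/-- `P` is a good place over `(a i, b j)` -/
def Nd (i : Fin N₁) (j : Fin N₂) (P : Place k C.E) : Prop := Node C.D a b C.x C.z i j P

/-- the set of the good places -/
def nodes : Set (Place k C.E) := {P | ∃ i j, C.Nd i j P}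

/-- the number of good places -/
noncomputable def n : ℕ := C.nodes.ncard

/-- the good places over `(a i, b j)` at which `θ` takes a value in `Θ i j` -/
def fixed (Θ : Fin N₁ → Fin N₂ → Finset k) : Set (Place k C.E) :=
  {P | ∃ i j, C.Nd i j P ∧ ∃ τ ∈ Θ i j, P.Ge 1 (C.th - algebraMap k C.E τ)}

/-- `f = ∏ (x - a i)` -/
noncomputable def f : C.E := ∏ i, (C.x - algebraMap k C.E (a i))

/-- `g = ∏ (z - b j)` -/
noncomputable def g : C.E := ∏ j, (C.z - algebraMap k C.E (b j))

/-- `φ = θ g ^ 2 / f ^ 2` -/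
noncomputable def ph : C.E := C.th * C.g ^ 2 / C.f ^ 2

end BC

/-- A family of bad curves, with an ultrafilter, which is not contained in any plane curve. -/
structure Fam {k : Type u} [Field k] {N₁ N₂ : ℕ} (a : Fin N₁ → k) (b : Fin N₂ → k) where
  ι : Type u
  U : Ultrafilter ι
  C : ι → BC a b
  gen : ∀ F : MvPolynomial (Fin 2) k, F ≠ 0 → ∀ᶠ i in (U : Filter ι), (C i).ev2 F ≠ 0

/-- the ideal of the polynomials which vanish on almost all curves of the family -/
noncomputable def Fam.v (T : Fam a b) : Ideal (P4 k) where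
  carrier := {Q | ∀ᶠ i in (T.U : Filter T.ι), (T.C i).ev Q = 0}
  zero_mem' := Filter.Eventually.of_forall fun i => by unfold BC.ev; exact map_zero _
  add_mem' := by
    intro p q hp hq
    filter_upwards [hp, hq] with i h1 h2
    unfold BC.ev at *
    rw [map_add, h1, h2, add_zero]
  smul_mem' := by
    intro c q hq
    filter_upwards [hq] with i h1
    unfold BC.ev at *
    rw [smul_eq_mul, map_mul, h1, mul_zero]

/-- the product of the `X 0 - a i` -/
noncomputable def fx (a : Fin N₁ → k) : P4 k := ∏ i, (X 0 - C (a i))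

/-- the product of the `X 1 - b j` -/
noncomputable def gz (b : Fin N₂ → k) : P4 k := ∏ j, (X 1 - C (b j))

/-- `f g` times the derivative along the curve, for polynomials in `x, z, θ` -/
noncomputable def op (a : Fin N₁ → k) (b : Fin N₂ → k) (Q : P4 k) : P4 k :=
  fx a * gz b * (X 2 * pderiv 0 Q + pderiv 1 Q) +
    pderiv 2 Q * X 2 * (X 3 * fx a * gz b + 2 * X 2 * pderiv 0 (fx a) * gz b -
      2 * fx a * pderiv 1 (gz b))

/-- the translation by `p` -/
noncomputable def tay (p : Fin 4 → k) : P4 k →ₐ[k] P4 k := aeval fun v => X v + C (p v)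

/-- `Q` vanishes to order at least `r` at the point `p` -/
def JetZero (r : ℕ) (p : Fin 4 → k) (Q : P4 k) : Prop :=
  ∀ s : Fin 4 →₀ ℕ, s.degree < r → coeff s (tay p Q) = 0

/-- the point of the line `L_ij` with `θ = τ` -/
noncomputable def pnt (a : Fin N₁ → k) (b : Fin N₂ → k) (i : Fin N₁) (j : Fin N₂) (τ : k) :
    Fin 4 → k := ![a i, b j, τ, slope b j - slope a i * τ]

/-- restriction to the line `L_ij` -/
noncomputable def ln (a : Fin N₁ → k) (b : Fin N₂ → k) (i : Fin N₁) (j : Fin N₂) :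
    P4 k →ₐ[k] Polynomial k := lin (a i) (b j) (slope a i) (slope b j)

/-- the derivative of `∏ (X - b l)` at `b j` -/
noncomputable def dpr {N : ℕ} (b : Fin N → k) (j : Fin N) : k :=
  ∏ l ∈ Finset.univ.erase j, (b j - b l)

/-- The variety of a family of curves with many prescribed values of `θ` at the good places. -/
structure IsVar (a : Fin N₁ → k) (b : Fin N₂ → k) (Θ : Fin N₁ → Fin N₂ → Finset k) (r M₀ : ℕ)
    (v : Ideal (P4 k)) : Prop where
  prime : v.IsPrime
  plane : ∀ F : MvPolynomial (Fin 2) k, inc F ∈ v → F = 0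
  theta : (X 2 : P4 k) ∉ v
  der : ∀ Q ∈ v, degreeOf 3 Q = 0 → op a b Q ∈ v
  count : ∀ d₁ d₂ M, d₁ * N₂ + d₂ * N₁ ≤ 8 * (N₁ * N₂) → M ≤ M₀ → ∀ Q ∈ Qd k d₁ d₂ M,
    (∀ i j, ln a b i j Q = 0) → (∀ i j, ∀ τ ∈ Θ i j, JetZero r (pnt a b i j τ) Q) → Q ∈ v

/-- `y` is a root of a polynomial with coefficients in `k[x, z]`, whose leading coefficient does not
vanish identically for `z = β` -/
def IntAt {K : Type*} [Field K] [Algebra k K] (x z : K) (β : k) (y : K) : Prop :=
  ∃ G : Polynomial (MvPolynomial (Fin 2) k),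
    aeval ![X 0, C β] G.leadingCoeff ≠ (0 : MvPolynomial (Fin 2) k) ∧
    G.eval₂ (aeval ![x, z] : MvPolynomial (Fin 2) k →ₐ[k] K).toRingHom y = 0

/-- the orders of `φ` are given by rational residues -/
def Orders (C : BC a b) (s₁ s₂ : Finset k) (ρ₁ ρ₂ : k → ℚ) : Prop :=
  ∀ P : Place k C.E, (P.ord C.ph : ℚ) = ∑ c ∈ s₂, ρ₂ c * P.ord (C.z - algebraMap k C.E c) -
    ∑ c ∈ s₁, ρ₁ c * P.ord (C.x - algebraMap k C.E c)

/-- `s₁` and `s₂` are small, compared with the number of good places -/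
def Small (q : ℕ) (C : BC a b) (s₁ s₂ : Finset k) : Prop :=
  q * s₁.card * ht k C.x ≤ C.n ∧ q * s₂.card * ht k C.z ≤ C.n

/-- `φ ^ l * ∏ (x - c) ^ ⌊l ρ₁ c⌋ * ∏ (z - c) ^ (- ⌊l ρ₂ c⌋)` -/
noncomputable def phs (C : BC a b) (s₁ s₂ : Finset k) (ρ₁ ρ₂ : k → ℚ) (l : ℕ) : C.E :=
  C.ph ^ l * (∏ c ∈ s₁, (C.x - algebraMap k C.E c) ^ ⌊l * ρ₁ c⌋) *
    ∏ c ∈ s₂, (C.z - algebraMap k C.E c) ^ (- ⌊l * ρ₂ c⌋)

/-- `φ ^ d * ∏ (x - c) ^ m₁ c * ∏ (z - c) ^ (- m₂ c)` -/
noncomputable def Phi (C : BC a b) (s₁ s₂ : Finset k) (d : ℕ) (m₁ m₂ : k → ℤ) : C.E :=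
  C.ph ^ d * (∏ c ∈ s₁, (C.x - algebraMap k C.E c) ^ m₁ c) *
    ∏ c ∈ s₂, (C.z - algebraMap k C.E c) ^ (- m₂ c)

/-- `θ` is a root of the polynomial `G` with coefficients in `k[x, z]` on the curve -/
def RootTh (C : BC a b) (G : Polynomial (MvPolynomial (Fin 2) k)) : Prop :=
  G.eval₂ (aeval ![C.x, C.z] : MvPolynomial (Fin 2) k →ₐ[k] C.E).toRingHom C.th = 0

/-- the curves which are not contained in `F = 0` have bounded height -/
def ExcA (a : Fin N₁ → k) (b : Fin N₂ → k) (F : MvPolynomial (Fin 2) k) : Prop :=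
  ∀ {E : Type u} [Field E] [Algebra k E] [CharZero E] [FF k E] (D : Derivation ℤ E E)
    (cp : Place k E → ℕ) (sc bd : Finset (Place k E)),
    (∀ w, D w = 0 ↔ ∃ c : k, algebraMap k E c = w) → Bp D cp sc → ∀ (x z : E), D x ≠ 0 →
    D z ≠ 0 → Pat D a b x z bd → aeval ![x, z] F ≠ 0 →
    ht k x + ht k z ≤ (∑ P ∈ sc, cp P) + bd.card

end

end Pool.Agent.PPZ
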