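import Mathlib
import Pool.Agent.Helper3_PPZ.Defs
import Pool.Agent.Helper11_PGL.StepG

/-!
# Squad PPZ: statements
-/

set_option autoImplicit false

universe u

namespace Pool.Agent.PPZ

open MvPolynomial PGH PPX

/-! ## Part 0: the curves -/

/-- NOD: the number of good places, and the heights -/
def NodStmt : Prop :=
  ∀ {k : Type u} [Field k] [IsAlgClosed k] [CharZero k] {N₁ N₂ : ℕ} (a : Fin N₁ → k)
    (b : Fin N₂ → k), Function.Injective a → Function.Injective b → ∀ C : BC a b,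
    C.nodes.Finite ∧ 0 < C.h ∧
    N₁ * ht k C.x ≤ C.n + 8 * C.h ∧ N₂ * ht k C.z ≤ C.n + 8 * C.h ∧
    (∀ N, 32 ≤ N → N ≤ N₁ → N ≤ N₂ → N * C.h ≤ 4 * C.n) ∧
    ht k C.th ≤ 4 * C.h ∧ ht k C.la ≤ 19 * C.h ∧
    (∀ i, {P ∈ C.nodes | P.ord (C.x - algebraMap k C.E (a i)) = 1}.ncard ≤ ht k C.x) ∧
    (∀ j, {P ∈ C.nodes | P.ord (C.z - algebraMap k C.E (b j)) = 1}.ncard ≤ ht k C.z) ∧
    (∀ c : k, algebraMap k C.E c ≠ C.x ∧ algebraMap k C.E c ≠ C.z) ∧ C.th ≠ 0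

/-- ZER: the number of zeros is at most the height -/
def ZerStmt : Prop :=
  ∀ {k E : Type u} [Field k] [IsAlgClosed k] [CharZero k] [Field E] [Algebra k E] [FF k E]
    (w : E), w ≠ 0 → ∀ (S : Finset (Place k E)) (m : Place k E → ℕ), (∀ P ∈ S, P.Ge (m P) w) →
    ∑ P ∈ S, m P ≤ ht k w

/-- CTA: the height of the value of a polynomial -/
def CtaStmt : Prop :=
  ∀ {k E : Type u} [Field k] [IsAlgClosed k] [CharZero k] [Field E] [Algebra k E] [FF k E]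
    (e : Fin 4 → E) (d₁ d₂ M : ℕ), ∀ Q ∈ Qd k d₁ d₂ M,
    (∀ P : Place k E, P.Ge (-(d₁ * max 0 (-P.ord (e 0)) + d₂ * max 0 (-P.ord (e 1)) +
      M * (max 0 (-P.ord (e 2)) + max 0 (-P.ord (e 3))))) (aeval e Q)) ∧
    ht k (aeval e Q) ≤ d₁ * ht k (e 0) + d₂ * ht k (e 1) + M * (ht k (e 2) + ht k (e 3))

/-- VAL: the values at a good place -/
def ValStmt : Prop :=
  ∀ {k : Type u} [Field k] [IsAlgClosed k] [CharZero k] {N₁ N₂ : ℕ} (a : Fin N₁ → k)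
    (b : Fin N₂ → k), Function.Injective a → Function.Injective b → ∀ (C : BC a b) (i : Fin N₁)
    (j : Fin N₂) (P : Place k C.E), C.Nd i j P → ∃ τ : k, τ ≠ 0 ∧
      (∀ v, P.Ge 1 (C.pt v - algebraMap k C.E (pnt a b i j τ v))) ∧
      (∀ Q : P4 k, (ln a b i j Q).eval τ = 0 → P.Ge 1 (C.ev Q)) ∧
      (∀ (r : ℕ) (Q : P4 k), JetZero r (pnt a b i j τ) Q → P.Ge r (C.ev Q)) ∧
      P.Ge 1 (C.th * C.ph - algebraMap k C.E ((dpr b j / dpr a i) ^ 2))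

/-- CTB: a polynomial which vanishes at many good places vanishes.  The assumption is
`(d₁ / N₁ + d₂ / N₂ + 1 / q) n < card S`. -/
def CtbStmt : Prop :=
  ∀ M₀ q : ℕ, 0 < q → ∃ N₀ : ℕ, ∀ {k : Type u} [Field k] [IsAlgClosed k] [CharZero k]
    {N₁ N₂ : ℕ} (a : Fin N₁ → k) (b : Fin N₂ → k), N₀ ≤ N₁ → N₀ ≤ N₂ → Function.Injective a →
    Function.Injective b → ∀ (C : BC a b) (d₁ d₂ M : ℕ), M ≤ M₀ → ∀ Q ∈ Qd k d₁ d₂ M,
    ∀ S : Set (Place k C.E), S ⊆ C.nodes → (∀ P ∈ S, P.Ge 1 (C.ev Q)) →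
    (q * (d₁ * N₂ + d₂ * N₁) + N₁ * N₂) * C.n < q * (N₁ * N₂) * S.ncard → C.ev Q = 0

/-- DER: the derivative of a polynomial in `x, z, θ` -/
def DerStmt : Prop :=
  ∀ {k : Type u} [Field k] [IsAlgClosed k] [CharZero k] {N₁ N₂ : ℕ} (a : Fin N₁ → k)
    (b : Fin N₂ → k) (C : BC a b) (Q : P4 k), degreeOf 3 Q = 0 →
    C.ev (fx a * gz b) * C.D (C.ev Q) = C.D C.z * C.ev (op a b Q)

/-- FAM: existence of families -/
def FamStmt : Prop :=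
  ∀ {k : Type u} [Field k] {N₁ N₂ : ℕ} (a : Fin N₁ → k) (b : Fin N₂ → k) (S : Set (BC a b)),
    (∀ F : MvPolynomial (Fin 2) k, F ≠ 0 → ∃ C ∈ S, C.ev2 F ≠ 0) →
    ∃ T : Fam a b, ∀ i, T.C i ∈ S

/-- PRI: the ideal of a family -/
def PriStmt : Prop :=
  ∀ {k : Type u} [Field k] {N₁ N₂ : ℕ} (a : Fin N₁ → k) (b : Fin N₂ → k) (T : Fam a b),
    T.v.IsPrime ∧ (∀ F : MvPolynomial (Fin 2) k, inc F ∈ T.v → F = 0) ∧
    ∀ Q : P4 k, Q ∉ T.v → ∀ᶠ i in (T.U : Filter T.ι), (T.C i).ev Q ≠ 0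

/-! ## Part 1: few good places have a prescribed value of `θ` -/

/-- VAR: the variety of a family of curves with many prescribed values -/
def VarStmt : Prop :=
  ∀ q M₀ : ℕ, 0 < q → ∃ N₀ : ℕ, ∀ {k : Type u} [Field k] [IsAlgClosed k] [CharZero k]
    {N₁ N₂ : ℕ} (a : Fin N₁ → k) (b : Fin N₂ → k), N₀ ≤ N₁ → N₀ ≤ N₂ → Function.Injective a →
    Function.Injective b → ∀ (Θ : Fin N₁ → Fin N₂ → Finset k) (T : Fam a b),
    (∀ᶠ i in (T.U : Filter T.ι), (T.C i).n < q * ((T.C i).fixed Θ).ncard) →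
    IsVar a b Θ (9 * q) M₀ T.v

/-- UPR: upper bound for the dimensions -/
def UprStmt : Prop :=
  ∀ {k : Type u} [Field k] {N₁ N₂ : ℕ} (a : Fin N₁ → k) (b : Fin N₂ → k)
    (Θ : Fin N₁ → Fin N₂ → Finset k) (r M₀ : ℕ) (v : Ideal (P4 k)), IsVar a b Θ r M₀ v →
    ∀ B : ℕ, (∀ i j, (Θ i j).card ≤ B) → ∀ d₁ d₂ M n : ℕ,
    d₁ * N₂ + d₂ * N₁ ≤ 8 * (N₁ * N₂) → M ≤ M₀ → ∀ W ≤ Qd k d₁ d₂ M,
    (∀ Q ∈ W, ∀ i j, (ln a b i j Q).natDegree ≤ n) → hh v W ≤ (n + 1 + B * r ^ 4) * (N₁ * N₂)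

/-- TWO: two equations of bounded degree -/
def TwoStmt : Prop :=
  ∀ {k : Type u} [Field k] {N₁ N₂ : ℕ} (a : Fin N₁ → k) (b : Fin N₂ → k)
    (Θ : Fin N₁ → Fin N₂ → Finset k) (r M₀ : ℕ) (v : Ideal (P4 k)), IsVar a b Θ r M₀ v →
    ∀ B : ℕ, (∀ i j, (Θ i j).card ≤ B) → 0 < N₁ → 0 < N₂ → ∀ M : ℕ, B * r ^ 4 ≤ M → M ≤ M₀ →
    ∃ R ∈ v, ∃ Q ∈ v, Irreducible R ∧ ¬ R ∣ Q ∧ R ∈ Qd k (2 * N₁) (2 * N₂) M ∧
      Q ∈ Qd k (2 * N₁) (2 * N₂) M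

/-- ZET: upper bound for the degree in `z` of the Chow form -/
def ZetStmt : Prop :=
  ∀ {k : Type u} [Field k] [Infinite k] {N₁ N₂ : ℕ} (a : Fin N₁ → k) (b : Fin N₂ → k)
    (Θ : Fin N₁ → Fin N₂ → Finset k) (r M₀ : ℕ) (v : Ideal (P4 k)), IsVar a b Θ r M₀ v →
    ∀ B : ℕ, (∀ i j, (Θ i j).card ≤ B) → 0 < N₁ → 0 < N₂ → ∀ M' : ℕ, B * r ^ 4 ≤ M' →
    8 * M' + 8 ≤ M₀ → ∀ R Q C : P4 k, R ∈ v → Q ∈ v → Irreducible R → ¬ R ∣ Q →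
    R ∈ Qd k (2 * N₁) (2 * N₂) M' → Q ∈ Qd k (2 * N₁) (2 * N₂) M' → Irreducible C → Van v C →
    (∀ F, Van v F → C ∣ F) → degreeOf 1 C < N₂

/-- POA: `θ` and `Λ` are not both integral at `z = b j` -/
def PoaStmt : Prop :=
  ∀ {k K : Type u} [Field k] [CharZero k] [Field K] [Algebra k K] {N₁ N₂ : ℕ} (a : Fin N₁ → k)
    (b : Fin N₂ → k), Function.Injective b → ∀ x z θ Λ : K, AlgebraicIndependent k ![x, z] →
    (∀ y : K, IsAlgebraic (IntermediateField.adjoin k {x, z}) y) → θ ≠ 0 →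
    ∀ D : Derivation k K K, D x = θ → D z = 1 →
    D θ = θ * (Λ + 2 * θ * (∑ i, (x - algebraMap k K (a i))⁻¹) -
      2 * ∑ j, (z - algebraMap k K (b j))⁻¹) →
    ∀ j, ∀ c₁ c₂ : k, c₁ ≠ c₂ → IntAt x z (b j) (Λ + algebraMap k K c₁ * θ) →
    IntAt x z (b j) (Λ + algebraMap k K c₂ * θ) → False

/-- FRA: the field of fractions of the quotient by the ideal, with the derivation -/
def FraStmt : Prop :=
  ∀ {k : Type u} [Field k] [CharZero k] {N₁ N₂ : ℕ} (a : Fin N₁ → k) (b : Fin N₂ → k)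
    (Θ : Fin N₁ → Fin N₂ → Finset k) (r M₀ : ℕ) (v : Ideal (P4 k)), IsVar a b Θ r M₀ v →
    ∀ R Q : P4 k, R ∈ v → Q ∈ v → Irreducible R → ¬ R ∣ Q →
    ∃ (K : Type u) (_ : Field K) (_ : Algebra k K) (e : Fin 4 → K) (D : Derivation k K K),
      (∀ Q : P4 k, aeval e Q = 0 ↔ Q ∈ v) ∧ AlgebraicIndependent k ![e 0, e 1] ∧
      (∀ y : K, IsAlgebraic (IntermediateField.adjoin k {e 0, e 1}) y) ∧ D (e 0) = e 2 ∧
      D (e 1) = 1 ∧ D (e 2) = e 2 * (e 3 + 2 * e 2 * (∑ i, (e 0 - algebraMap k K (a i))⁻¹) -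
        2 * ∑ j, (e 1 - algebraMap k K (b j))⁻¹)

/-- POL: lower bound for the degree in `z` of the Chow form -/
def PolStmt : Prop :=
  ∀ {k : Type u} [Field k] [CharZero k] {N₁ N₂ : ℕ} (a : Fin N₁ → k) (b : Fin N₂ → k)
    (Θ : Fin N₁ → Fin N₂ → Finset k) (r M₀ : ℕ) (v : Ideal (P4 k)), IsVar a b Θ r M₀ v →
    Function.Injective b → ∀ R Q C : P4 k, R ∈ v → Q ∈ v → Irreducible R → ¬ R ∣ Q →
    Irreducible C → Van v C → N₂ ≤ degreeOf 1 C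

/-- XZE: few good places have a prescribed value of `θ` -/
def XzeStmt : Prop :=
  ∀ B q : ℕ, 0 < q → ∃ N₀ : ℕ, ∀ {k : Type u} [Field k] [IsAlgClosed k] [CharZero k]
    {N₁ N₂ : ℕ} (a : Fin N₁ → k) (b : Fin N₂ → k), N₀ ≤ N₁ → N₀ ≤ N₂ → Function.Injective a →
    Function.Injective b → ∀ Θ : Fin N₁ → Fin N₂ → Finset k, (∀ i j, (Θ i j).card ≤ B) →
    ∀ T : Fam a b, ∀ᶠ i in (T.U : Filter T.ι), q * ((T.C i).fixed Θ).ncard ≤ (T.C i).n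

/-! ## Part 2: `Λ = S (z) - T (x) θ` -/

/-- RMN: an equation of small degree -/
def RmnStmt : Prop :=
  ∀ q : ℕ, 4 ≤ q → ∃ N₀ : ℕ, ∀ {k : Type u} [Field k] [IsAlgClosed k] [CharZero k]
    {N₁ N₂ : ℕ} (a : Fin N₁ → k) (b : Fin N₂ → k), N₀ ≤ N₁ → N₀ ≤ N₂ → Function.Injective a →
    Function.Injective b → ∀ T : Fam a b, ∃ R ∈ T.v,
      R ∈ Qd k (N₁ / q) (N₂ / q) (2 * q ^ 2) ∧ pderiv 3 R ∉ T.v ∧
      ∀ᶠ i in (T.U : Filter T.ι),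
        q * {P | ∃ l j, (T.C i).Nd l j P ∧ ln a b l j R ≠ 0}.ncard ≤ (T.C i).n

/-- TSX: the functions `T` and `S` -/
def TsxStmt : Prop :=
  ∀ q : ℕ, 0 < q → ∃ N₀ : ℕ, ∀ {k : Type u} [Field k] [IsAlgClosed k] [CharZero k]
    {N₁ N₂ : ℕ} (a : Fin N₁ → k) (b : Fin N₂ → k), N₀ ≤ N₁ → N₀ ≤ N₂ → Function.Injective a →
    Function.Injective b → ∀ T : Fam a b, ∃ (A B A' B' : Polynomial k) (s₁ s₂ : Finset k),
      B ≠ 0 ∧ B' ≠ 0 ∧ (∀ c, c ∈ s₁ ↔ B.IsRoot c) ∧ (∀ c, c ∈ s₂ ↔ B'.IsRoot c) ∧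
      ∀ᶠ i in (T.U : Filter T.ι),
        (T.C i).la = Polynomial.aeval (T.C i).z A' / Polynomial.aeval (T.C i).z B' -
          Polynomial.aeval (T.C i).x A / Polynomial.aeval (T.C i).x B * (T.C i).th ∧
        Small q (T.C i) s₁ s₂

/-! ## Part 3: residues -/

/-- PFD: partial fractions -/
def PfdStmt : Prop :=
  ∀ {k : Type u} [Field k] [IsAlgClosed k] [CharZero k] (A B : Polynomial k), B ≠ 0 →
    ∀ s : Finset k, (∀ c, c ∈ s ↔ B.IsRoot c) →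
    ∃ (r : k → k) (U V : Polynomial k), ∀ {E : Type u} [Field E] [Algebra k E]
      (D : Derivation ℤ E E), (∀ c : k, D (algebraMap k E c) = 0) → ∀ x : E,
      (∀ c : k, algebraMap k E c ≠ x) →
      Polynomial.aeval x A / Polynomial.aeval x B * D x =
        ∑ c ∈ s, algebraMap k E (r c) * (D x / (x - algebraMap k E c)) +
          D (Polynomial.aeval x U / Polynomial.aeval x V)

/-- LRE: residues of logarithmic differentials -/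
def LreStmt : Prop :=
  ∀ {k E : Type u} [Field k] [IsAlgClosed k] [CharZero k] [Field E] [Algebra k E] [FF k E]
    (D : Derivation ℤ E E), (∀ w, D w = 0 ↔ ∃ c : k, algebraMap k E c = w) →
    ∀ {ι : Type} (s : Finset ι) (y : ι → E) (m : ι → k) (α : E), (∀ i ∈ s, y i ≠ 0) →
    ∑ i ∈ s, algebraMap k E (m i) * (D (y i) / y i) = D α →
    ∀ P : Place k E, ∑ i ∈ s, m i * (P.ord (y i) : k) = 0

/-- RTA: the orders of `φ` are given by residues -/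
def RtaStmt : Prop :=
  ∀ q : ℕ, 0 < q → ∃ N₀ : ℕ, ∀ {k : Type u} [Field k] [IsAlgClosed k] [CharZero k]
    {N₁ N₂ : ℕ} (a : Fin N₁ → k) (b : Fin N₂ → k), N₀ ≤ N₁ → N₀ ≤ N₂ → Function.Injective a →
    Function.Injective b → ∀ T : Fam a b, ∃ (s₁ s₂ : Finset k) (r₁ r₂ : k → k),
      ∀ᶠ i in (T.U : Filter T.ι), Small q (T.C i) s₁ s₂ ∧
        ∀ P : Place k (T.C i).E, (P.ord (T.C i).ph : k) =
          ∑ c ∈ s₂, r₂ c * P.ord ((T.C i).z - algebraMap k (T.C i).E c) -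
            ∑ c ∈ s₁, r₁ c * P.ord ((T.C i).x - algebraMap k (T.C i).E c)

/-- RTB: the residues are rational -/
def RtbStmt : Prop :=
  ∀ q : ℕ, 4 ≤ q → ∃ N₀ : ℕ, ∀ {k : Type u} [Field k] [IsAlgClosed k] [CharZero k]
    {N₁ N₂ : ℕ} (a : Fin N₁ → k) (b : Fin N₂ → k), N₀ ≤ N₁ → N₀ ≤ N₂ → Function.Injective a →
    Function.Injective b → ∀ (T : Fam a b) (s₁ s₂ : Finset k) (r₁ r₂ : k → k),
      (∀ᶠ i in (T.U : Filter T.ι), Small q (T.C i) s₁ s₂ ∧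
        ∀ P : Place k (T.C i).E, (P.ord (T.C i).ph : k) =
          ∑ c ∈ s₂, r₂ c * P.ord ((T.C i).z - algebraMap k (T.C i).E c) -
            ∑ c ∈ s₁, r₁ c * P.ord ((T.C i).x - algebraMap k (T.C i).E c)) →
      (∀ c ∈ s₁, ∃ ρ : ℚ, r₁ c = ρ) ∧ ∀ c ∈ s₂, ∃ ρ : ℚ, r₂ c = ρ

/-- PHI: `Φ` is constant on every curve -/
def PhiStmt : Prop :=
  ∀ {k : Type u} [Field k] [IsAlgClosed k] [CharZero k] {N₁ N₂ : ℕ} (a : Fin N₁ → k)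
    (b : Fin N₂ → k), Function.Injective a → Function.Injective b → ∀ (s₁ s₂ : Finset k)
    (ρ₁ ρ₂ : k → ℚ), ∃ (d : ℕ) (m₁ m₂ : k → ℤ), 0 < d ∧ (∀ c ∈ s₁, (m₁ c : ℚ) = d * ρ₁ c) ∧
      (∀ c ∈ s₂, (m₂ c : ℚ) = d * ρ₂ c) ∧ ∀ C : BC a b, Orders C s₁ s₂ ρ₁ ρ₂ →
        ∃ c : k, c ≠ 0 ∧ Phi C s₁ s₂ d m₁ m₂ = algebraMap k C.E c

/-! ## Part 4: the end -/

/-- REL: a relation between the `θ ^ l φ_l` -/
def RelStmt : Prop :=
  ∃ N₀ : ℕ, ∀ {k : Type u} [Field k] [IsAlgClosed k] [CharZero k]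
    {N₁ N₂ : ℕ} (a : Fin N₁ → k) (b : Fin N₂ → k), N₀ ≤ N₁ → N₀ ≤ N₂ → Function.Injective a →
    Function.Injective b → ∀ (s₁ s₂ : Finset k) (ρ₁ ρ₂ : k → ℚ),
      ∃ q : Fin 17 → MvPolynomial (Fin 2) k, q ≠ 0 ∧ ∀ C : BC a b, Orders C s₁ s₂ ρ₁ ρ₂ →
        Small 16 C s₁ s₂ → ∑ l, C.ev2 (q l) * C.th ^ (l : ℕ) * phs C s₁ s₂ ρ₁ ρ₂ l = 0

/-- ALT: `θ` is algebraic over `k(x, z)` -/
def AltStmt : Prop :=
  ∀ {k : Type u} [Field k] [IsAlgClosed k] [CharZero k] {N₁ N₂ : ℕ} (a : Fin N₁ → k)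
    (b : Fin N₂ → k), Function.Injective a → Function.Injective b → ∀ (s₁ s₂ : Finset k)
    (ρ₁ ρ₂ : k → ℚ) (q : Fin 17 → MvPolynomial (Fin 2) k), q ≠ 0 →
      ∃ G : Polynomial (MvPolynomial (Fin 2) k), G ≠ 0 ∧ G.natDegree ≤ 32 ∧ ∀ C : BC a b,
        ∑ l, C.ev2 (q l) * C.th ^ (l : ℕ) * phs C s₁ s₂ ρ₁ ρ₂ l = 0 → RootTh C G

/-- KUM: powers in the base field -/
def KumStmt : Prop :=
  ∀ {F K : Type u} [Field F] [Field K] [Algebra F K] [CharZero F] (y : K) (d B : ℕ), 0 < d →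
    y ≠ 0 → (∀ ζ : AlgebraicClosure K, ζ ^ d = 1 → ∃ c : F, algebraMap F (AlgebraicClosure K) c = ζ) →
    (∃ c : F, algebraMap F K c = y ^ d) →
    (∃ G : Polynomial F, G ≠ 0 ∧ G.natDegree ≤ B ∧ Polynomial.aeval y G = 0) →
    ∃ d' : ℕ, 0 < d' ∧ d' ≤ B ∧ ∃ c : F, algebraMap F K c = y ^ d'

/-- CON: the case where `Φ` is the same constant on all curves -/
def ConStmt : Prop :=
  ∃ N₀ : ℕ, ∀ {k : Type u} [Field k] [IsAlgClosed k] [CharZero k]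
    {N₁ N₂ : ℕ} (a : Fin N₁ → k) (b : Fin N₂ → k), N₀ ≤ N₁ → N₀ ≤ N₂ → Function.Injective a →
    Function.Injective b → ∀ (s₁ s₂ : Finset k) (ρ₁ ρ₂ : k → ℚ) (d : ℕ) (m₁ m₂ : k → ℤ), 0 < d →
      (∀ c ∈ s₁, (m₁ c : ℚ) = d * ρ₁ c) → (∀ c ∈ s₂, (m₂ c : ℚ) = d * ρ₂ c) →
      ∀ G : Polynomial (MvPolynomial (Fin 2) k), G ≠ 0 → G.natDegree ≤ 32 →
      ∀ (T : Fam a b) (c : k), c ≠ 0 → (∀ᶠ i in (T.U : Filter T.ι),
        Small 16 (T.C i) s₁ s₂ ∧ RootTh (T.C i) G ∧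
          Phi (T.C i) s₁ s₂ d m₁ m₂ = algebraMap k (T.C i).E c) → False

/-- HOR: horizontal derivations -/
def HorStmt : Prop :=
  ∀ {k L E : Type u} [Field k] [Field L] [Field E] [Algebra k L] [Algebra L E] [Algebra k E]
    [IsScalarTower k L E] [CharZero k] [IsAlgClosed L] [CharZero L] [FF L E] (φ : L),
    Transcendental k φ → (∀ c : L, IsAlgebraic (IntermediateField.adjoin k {φ}) c) →
    ∀ P : Place L E, ∃ δ : Derivation k E E, δ (algebraMap L E φ) = 1 ∧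
      (∀ y, P.Ge 0 y → P.Ge 0 (δ y)) ∧ ∀ y, P.Ge 1 y → P.Ge 1 (δ y)

/-- PEN: the case of a pencil -/
def PenStmt : Prop :=
  ∀ {k : Type u} [Field k] [IsAlgClosed k] [CharZero k] {N₁ N₂ : ℕ} (a : Fin N₁ → k)
    (b : Fin N₂ → k), 32 ≤ N₁ → 32 ≤ N₂ → Function.Injective a → Function.Injective b →
    ∀ G : Polynomial (MvPolynomial (Fin 2) k), G ≠ 0 → ∀ p q : P4 k, degreeOf 3 p = 0 →
    degreeOf 3 q = 0 → ∀ T : Fam a b, (∀ᶠ i in (T.U : Filter T.ι), RootTh (T.C i) G ∧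
      (T.C i).ev q ≠ 0 ∧ ∃ c : k, (T.C i).ev p = algebraMap k (T.C i).E c * (T.C i).ev q) →
    (∀ c : k, ∀ᶠ i in (T.U : Filter T.ι),
      (T.C i).ev p ≠ algebraMap k (T.C i).E c * (T.C i).ev q) → False

/-- NOF: there are no families of bad curves -/
def NofStmt : Prop :=
  ∃ N₀ : ℕ, 20 ≤ N₀ ∧ ∀ {k : Type u} [Field k] [IsAlgClosed k] [CharZero k]
    {N₁ N₂ : ℕ} (a : Fin N₁ → k) (b : Fin N₂ → k), N₀ ≤ N₁ → N₀ ≤ N₂ → Function.Injective a →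
    Function.Injective b → Fam a b → False

/-- HXX: the height inequality outside a plane curve -/
def HxxStmt : Prop :=
  ∃ N₀ : ℕ, 20 ≤ N₀ ∧ ∀ {k : Type u} [Field k] [IsAlgClosed k] [CharZero k] {N₁ N₂ : ℕ}
    (a : Fin N₁ → k) (b : Fin N₂ → k), N₀ ≤ N₁ → N₀ ≤ N₂ → Function.Injective a →
    Function.Injective b → ∃ F : MvPolynomial (Fin 2) k, F ≠ 0 ∧ ExcA a b F

/-- HGA: bounded heights -/
def HgaStmt : Prop :=
  ∀ {k E : Type u} [Field k] [Field E] [Algebra k E] [IsAlgClosed k] [CharZero k] [CharZero E]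
    [FF k E] (D : Derivation ℤ E E), (∀ w, D w = 0 ↔ ∃ c : k, algebraMap k E c = w) →
    ∀ (cp : Place k E → ℕ) (sc : Finset (Place k E)), Bp D cp sc →
    ∀ {N₁ N₂ R : ℕ} (x z : E) (a : Fin N₁ → k) (b : Fin N₂ → k) (α : Fin R → Fin N₁ → ℤ)
      (β : Fin R → Fin N₂ → ℤ) (e : Fin R → ℕ) (c y : Fin R → E) (F : MvPolynomial (Fin 2) k),
    20 ≤ N₁ → 20 ≤ N₂ → Function.Injective a → Function.Injective b →
    (∀ i, x ≠ algebraMap k E (a i)) → (∀ j, z ≠ algebraMap k E (b j)) →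
    Rels x z (fun i => algebraMap k E (a i)) (fun j => algebraMap k E (b j)) α β e c y →
    ExcA a b F → aeval ![x, z] F ≠ 0 →
    ht k x + ht k z ≤ 10 * (∑ P ∈ sc, cp P) + 10 * ∑ r, 2 * ht k (c r)

/-- A step from the subfield `F` to the subfield `F'` of `M`, relative to the field of constants
`K`; there is no condition on the `a i` and `b j` except that they are distinct. -/
structure LineStep (N₀ : ℕ) {M : Type*} [Field M] (K F F' : Subfield M) : Prop where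
  le : F ≤ F'
  step : ∃ (N₁ N₂ R : ℕ) (x z : M) (a : Fin N₁ → M) (b : Fin N₂ → M) (α : Fin R → Fin N₁ → ℤ)
    (β : Fin R → Fin N₂ → ℤ) (e : Fin R → ℕ) (c y : Fin R → M),
    N₀ ≤ N₁ ∧ N₀ ≤ N₂ ∧ (∀ i, a i ∈ K) ∧ (∀ j, b j ∈ K) ∧ Function.Injective a ∧
    Function.Injective b ∧ (∀ r, c r ∈ F) ∧ Rels x z a b α β e c y ∧
    (∀ p : MvPolynomial (Fin 2) K, eval₂ K.subtype ![x, z] p = 0 → p = 0) ∧
    ∀ w ∈ F', IsAlgebraic (Subfield.closure ((F : Set M) ∪ {x, z})) w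

/-- GOZ: line steps preserve good elements of the second kind -/
def GozStmt : Prop :=
  ∃ N₀ : ℕ, ∀ {k M : Type u} [Field k] [Field M] [Algebra k M] [IsAlgClosed k]
    [CharZero k] (F₀ : Set M) (F F' : Subfield M),
    LineStep N₀ (algebraMap k M).fieldRange F F' → (∀ w ∈ F, PGL.GoodEl2 k F₀ w) →
    ∀ w ∈ F', PGL.GoodEl2 k F₀ w

end Pool.Agent.PPZ
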