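import Pool.Agent.Helper86_PPZ.Alt
import Pool.Agent.Helper33_PPZ.ConB
import Pool.Agent.Helper47_PPZ.Cta
import Pool.Agent.Helper21_PPZ.Zer
import Pool.Agent.Helper65_PPZ.Der
import Pool.Agent.Helper31_PPZ.Fam
import Pool.Agent.Helper32_PPZ.Fra
import Pool.Agent.Helper21_PPZ.Goz
import Pool.Agent.Helper6_PPZ.Hga
import Pool.Agent.Helper9_PPZ.Hor
import Pool.Agent.Helper32_PPZ.Hxx
import Pool.Agent.Helper90_PPZ.Kum
import Pool.Agent.Helper58_PPZ.Lre
import Pool.Agent.Helper83_PPZ.Nod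
import Pool.Agent.Helper47_PPZ.Nof
import Pool.Agent.Helper20_PPZ.Pfd
import Pool.Agent.Helper47_PPZ.Phi
import Pool.Agent.Helper85_PPZ.Pol
import Pool.Agent.Helper47_PPZ.Pri
import Pool.Agent.Helper76_PPZ.Rmn
import Pool.Agent.Helper32_PPZ.Rta
import Pool.Agent.Helper17_PPZ.Rtb
import Pool.Agent.Helper27_PPZ.Tsx
import Pool.Agent.Helper6_PPZ.Upr
import Pool.Agent.Helper43_PPZ.Val
import Pool.Agent.Helper43_PPZ.Var
import Pool.Agent.Helper85_PPZ.Xze
import Pool.Agent.Helper52_PPZ.Zet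
import Pool.Agent.Helper58_PPZ.Poa
import Pool.Agent.Helper58_PPZ.Rel
import Pool.Agent.Helper67_PPZ.Pen

/-!
# Squad PPZ: assembly
-/

universe u

namespace Pool.Agent.PPZ.H3

theorem ctb : CtbStmt.{u} := H21.ctb H83.nod H21.zer H47.cta

theorem var : VarStmt.{u} := H43.var H83.nod H21.zer H47.cta H43.val H65.der H47.pri

theorem xze_of (poa : PoaStmt.{u}) : XzeStmt.{u} :=
  H85.xze H47.pri var (H6.two H6.upr) (H52.zet H6.upr) (H85.pol poa H32.fra)

theorem rmn_of (poa : PoaStmt.{u}) : RmnStmt.{u} := H76.rmn H83.nod ctb H43.val H47.pri (xze_of poa)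

theorem tsx_of (poa : PoaStmt.{u}) : TsxStmt.{u} :=
  H27.tsx H83.nod H47.cta ctb H43.val H47.pri (rmn_of poa)

theorem rta_of (poa : PoaStmt.{u}) : RtaStmt.{u} := H32.rta H83.nod (tsx_of poa) H20.pfd H58.lre

theorem con_of (poa : PoaStmt.{u}) : ConStmt.{u} :=
  H33.con H83.nod H43.val H47.pri (xze_of poa) H90.kum

theorem nof_of (poa : PoaStmt.{u}) (rel : RelStmt.{u}) (pen : PenStmt.{u}) : NofStmt.{u} :=
  H47.nof H83.nod (rta_of poa) (H17.rtb H83.nod H43.val) (H47.phi H83.nod) rel H86.alt0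
    (con_of poa) pen

theorem hxx_of (poa : PoaStmt.{u}) (rel : RelStmt.{u}) (pen : PenStmt.{u}) : HxxStmt.{u} :=
  H32.hxx H31.fam (nof_of poa rel pen)

theorem goz_of (poa : PoaStmt.{u}) (rel : RelStmt.{u}) (pen : PenStmt.{u}) : GozStmt.{u} :=
  H21.goz (hxx_of poa rel pen) H6.hga

/-- NOF: there are no families of bad curves -/
theorem nof0 : NofStmt.{u} :=
  nof_of H58.poa (H58.rel H83.nod H21.zer H43.val) (H67.pen H83.nod H9.hor)

/-- HXX: the height inequality outside a plane curve -/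
theorem hxx0 : HxxStmt.{u} := H32.hxx H31.fam nof0

/-- GOZ: line steps preserve good elements of the second kind -/
theorem goz0 : GozStmt.{u} := H21.goz hxx0 H6.hga

end Pool.Agent.PPZ.H3
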